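import Pool.Agent.Helper98.HQ.Spec

/-!
# HQ, part LB: general lower bound (MP_1ece5f_pr)
-/

set_option autoImplicit false
set_option linter.style.haveILetI false
set_option linter.unusedVariables false

open MeasureTheory Filter Topology
open scoped ENNReal NNReal

namespace Pool.Agent.Helper16.HQ.LB

open Pool.Agent.Helper98.HQ

lemma pp_nonneg (e : ℝ) : 0 ≤ pp e := by unfold pp; positivity

lemma pp_le_one (e : ℝ) : pp e ≤ 1 := by
  unfold pp
  rw [div_le_one (by positivity)]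
  linarith [sq_nonneg e]

lemma pp_le_sq (e : ℝ) : pp e ≤ e ^ 2 := by
  unfold pp
  rw [div_le_iff₀ (by positivity)]
  nlinarith [sq_nonneg e, sq_nonneg (e ^ 2)]

lemma mix1 (β e : ℝ) (he : 0 < e) :
    (1 - pp e) * (1 - β * e) + pp e * (1 + β / e) = 1 := by
  unfold pp
  have h1 : 1 + e ^ 2 ≠ 0 := by positivity
  field_simp
  ring

lemma mix2 (β e : ℝ) (he : 0 < e) :
    (1 - pp e) * (1 - β * e) ^ 2 + pp e * (1 + β / e) ^ 2 = 1 + β ^ 2 := by
  unfold pp
  have h1 : 1 + e ^ 2 ≠ 0 := by positivity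
  field_simp
  ring

lemma NNpp (e : ℕ → ℝ) (h0 : ∀ j, 0 < e j) (hlim : Tendsto e atTop (𝓝 0)) :
    Tendsto (fun j => (NN (e j) : ℝ) * pp (e j)) atTop (𝓝 0) := by
  have h1 : Tendsto (fun j => Real.sqrt (e j) + e j ^ 2) atTop (𝓝 0) := by
    have h2 : Tendsto (fun j => Real.sqrt (e j)) atTop (𝓝 0) := by
      have := (Real.continuous_sqrt.tendsto 0).comp hlim
      rw [Real.sqrt_zero] at this
      exact this
    have h3 : Tendsto (fun j => e j ^ 2) atTop (𝓝 0) := by
      have := hlim.pow 2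
      simpa using this
    simpa using h2.add h3
  refine squeeze_zero (fun j => mul_nonneg (Nat.cast_nonneg _) (pp_nonneg _)) (fun j => ?_) h1
  have hs : 0 < Real.sqrt (e j) := Real.sqrt_pos.2 (h0 j)
  have h4 : (NN (e j) : ℝ) ≤ 1 / (e j * Real.sqrt (e j)) + 1 := by
    unfold NN
    exact (Nat.ceil_lt_add_one (by have := h0 j; positivity)).le
  calc (NN (e j) : ℝ) * pp (e j) ≤ (1 / (e j * Real.sqrt (e j)) + 1) * (e j) ^ 2 :=
        mul_le_mul h4 (pp_le_sq _) (pp_nonneg _) (by have := h0 j; positivity)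
    _ = Real.sqrt (e j) + e j ^ 2 := by
        have h5 : e j = Real.sqrt (e j) * Real.sqrt (e j) := (Real.mul_self_sqrt (h0 j).le).symm
        have h6 : 1 / (e j * Real.sqrt (e j)) * (e j) ^ 2 = Real.sqrt (e j) := by
          have hne : e j ≠ 0 := (h0 j).ne'
          rw [div_mul_eq_mul_div, one_mul, div_eq_iff (by positivity)]
          calc (e j) ^ 2 = e j * e j := by ring
            _ = e j * (Real.sqrt (e j) * Real.sqrt (e j)) := by rw [← h5]
            _ = Real.sqrt (e j) * (e j * Real.sqrt (e j)) := by ring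
        rw [add_mul, h6, one_mul]

section
variable {m : ℕ} {ν : Measure (ℝ × ℝ)} {β : ℝ} {e : ℕ → ℝ}
  {πe : ℕ → Measure (Fin (m + 1) → ℝ)} {π : Measure (Fin (m + 1) → ℝ)}

lemma mean_bd (hMEANB : S_MEANB) (F : Fam m ν β e πe π) :
    ∃ Mn : ℝ, 0 ≤ Mn ∧ (∀ j, (∀ i, Integrable (fun w : Fin (m + 1) → ℝ => w i) (πe j)) ∧
      ∑ i, ∫ w, w i ∂(πe j) ≤ Mn) ∧
      ∀ i, Integrable (fun w : Fin (m + 1) → ℝ => w i) π := by
  have hA : 0 < ∫ u, u.1 ∂ν - (∫ u, u.2 ∂ν) / (m + 1) := by
    have := F.inp.stab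
    push_cast at this
    rw [sub_pos, div_lt_iff₀ (by positivity)]
    linarith
  refine ⟨max (((1 + β ^ 2) * (∫ u, u.2 ^ 2 ∂ν) + (m + 1) * ∫ u, u.1 ^ 2 ∂ν) /
    (2 * (∫ u, u.1 ∂ν - (∫ u, u.2 ∂ν) / (m + 1)))) 0, le_max_right _ _, ?_, ?_⟩
  · intro j
    have he := F.e0 j
    have hb := F.β0
    have := hMEANB m ν (pp (e j)) (1 - β * e j) (1 + β / e j) (πe j) F.inp (pp_nonneg _)
      (pp_le_one _) (by linarith) (by have := he.1; positivity) (mix1 β (e j) he.1) (F.st j)
    refine ⟨this.1, le_max_of_le_left ?_⟩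
    rw [le_div_iff₀ (by positivity)]
    have h2 := this.2
    rw [mix2 β (e j) he.1] at h2
    linarith
  · exact (hMEANB m ν 0 1 1 π F.inp le_rfl zero_le_one zero_le_one zero_le_one (by norm_num)
      F.st0).1

lemma int_h {μ : Measure (Fin (m + 1) → ℝ)} (hadm : ∀ᵐ w ∂μ, Adm w)
    (hi : ∀ i, Integrable (fun w : Fin (m + 1) → ℝ => w i) μ)
    (h : (Fin (m + 1) → ℝ) → ℝ) (hm : Measurable h) (h0 : ∀ w, Adm w → 0 ≤ h w)
    (h1 : ∀ w, Adm w → h w ≤ ∑ i, w i) :
    Integrable h μ ∧ ∫⁻ w, ENNReal.ofReal (h w) ∂μ = ENNReal.ofReal (∫ w, h w ∂μ) ∧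
      0 ≤ ∫ w, h w ∂μ := by
  have hI : Integrable h μ := by
    refine Integrable.mono' (integrable_finsetSum Finset.univ (fun i _ => hi i))
      hm.aestronglyMeasurable ?_
    filter_upwards [hadm] with w hw
    rw [Real.norm_eq_abs, abs_of_nonneg (h0 w hw)]
    exact h1 w hw
  have hnn : 0 ≤ᵐ[μ] h := by
    filter_upwards [hadm] with w hw using h0 w hw
  exact ⟨hI, (ofReal_integral_eq_lintegral_ofReal hI hnn).symm, integral_nonneg_of_ae hnn⟩

lemma inputs_nn (k : ℕ) (hI : Inp k ν) :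
    ∀ᵐ ω ∂(Measure.infinitePi fun _ : ℕ => ν), ∀ i, 0 ≤ (ω i).1 ∧ 0 ≤ (ω i).2 := by
  haveI := hI.prob
  rw [ae_all_iff]
  intro i
  have h1 : (Measure.infinitePi fun _ : ℕ => ν).map (fun ω => ω i) = ν :=
    Measure.infinitePi_map_eval (fun _ : ℕ => ν) i
  have h2 : ∀ᵐ u ∂((Measure.infinitePi fun _ : ℕ => ν).map (fun ω => ω i)),
      0 ≤ u.1 ∧ 0 ≤ u.2 := by rw [h1]; exact hI.nn
  exact ae_of_ae_map (measurable_pi_apply i).aemeasurable h2

/-- the inequality for one `j` -/
lemma one_j (hDEC : S_DEC) (hBR : S_BR) (F : Fam m ν β e πe π)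
    (h : (Fin (m + 1) → ℝ) → ℝ) (C Mn : ℝ) (G : ℕ → ℕ → (ℕ → ℝ × ℝ) → ℝ)
    (hC : 0 ≤ C) (hMn : 0 ≤ Mn) (hm : Measurable h)
    (hG : ∀ j n, Measurable (G j n))
    (hlow : ∀ (j n : ℕ) (w : Fin (m + 1) → ℝ) (ω : ℕ → ℝ × ℝ), Adm w →
      (∀ i, 0 ≤ (ω i).1 ∧ 0 ≤ (ω i).2) →
      G j n ω - C * ∑ i, w i ≤ h (pth (cc (1 - β * e j) (1 + β / e j)) w ω (n + 1)))
    (j : ℕ) (hi : ∀ i, Integrable (fun w : Fin (m + 1) → ℝ => w i) (πe j))
    (hmean : ∑ i, ∫ w, w i ∂(πe j) ≤ Mn) (M : ℝ) (hM : 0 ≤ M) :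
    ∫⁻ w, min (ENNReal.ofReal (h w)) (ENNReal.ofReal M) ∂(πe j) + ENNReal.ofReal (pp (e j)) *
      ∑ n ∈ Finset.range (NN (e j)), ENNReal.ofReal (1 - pp (e j)) ^ n *
        ∫⁻ ω, ENNReal.ofReal (G j n ω) ∂(Measure.infinitePi fun _ : ℕ => ν) ≤
      ∫⁻ w, ENNReal.ofReal (h w) ∂(πe j) +
        ENNReal.ofReal ((M + C * Mn) * (NN (e j) * pp (e j))) := by
  haveI := F.inp.prob
  haveI := (F.st j).prob
  have hp0 := pp_nonneg (e j)
  have hp1 := pp_le_one (e j)
  have hms : Measurable (fun w : Fin (m + 1) → ℝ => ENNReal.ofReal (C * ∑ i, w i)) := by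
    apply Measurable.ennreal_ofReal
    exact (Finset.measurable_sum Finset.univ (fun i _ => measurable_pi_apply i)).const_mul C
  have key : ∀ n : ℕ, ∫⁻ ω, ENNReal.ofReal (G j n ω) ∂(Measure.infinitePi fun _ : ℕ => ν) ≤
      ∫⁻ w, op ν (1 + β / e j) ((op ν (1 - β * e j))^[n] (fun w => ENNReal.ofReal (h w))) w
        ∂(πe j) + ENNReal.ofReal (C * Mn) := by
    intro n
    have h1 : ∀ᵐ w ∂(πe j),
        ∫⁻ ω, ENNReal.ofReal (G j n ω) ∂(Measure.infinitePi fun _ : ℕ => ν) ≤
        op ν (1 + β / e j) ((op ν (1 - β * e j))^[n] (fun w => ENNReal.ofReal (h w))) w +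
          ENNReal.ofReal (C * ∑ i, w i) := by
      filter_upwards [(F.st j).adm] with w hw
      rw [hBR (m + 1) ν (1 - β * e j) (1 + β / e j) (fun w => ENNReal.ofReal (h w)) n w F.inp.prob
        hm.ennreal_ofReal]
      calc ∫⁻ ω, ENNReal.ofReal (G j n ω) ∂(Measure.infinitePi fun _ : ℕ => ν)
          ≤ ∫⁻ ω, (ENNReal.ofReal (h (pth (cc (1 - β * e j) (1 + β / e j)) w ω (n + 1))) +
              ENNReal.ofReal (C * ∑ i, w i)) ∂(Measure.infinitePi fun _ : ℕ => ν) := by
            apply lintegral_mono_ae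
            filter_upwards [inputs_nn (m + 1) F.inp] with ω hω
            refine le_trans (ENNReal.ofReal_le_ofReal ?_) ENNReal.ofReal_add_le
            linarith [hlow j n w ω hw hω]
        _ = _ := by
            rw [lintegral_add_right _ measurable_const, lintegral_const, measure_univ, mul_one]
    calc ∫⁻ ω, ENNReal.ofReal (G j n ω) ∂(Measure.infinitePi fun _ : ℕ => ν)
        = ∫⁻ _w, (∫⁻ ω, ENNReal.ofReal (G j n ω) ∂(Measure.infinitePi fun _ : ℕ => ν))
            ∂(πe j) := by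
          rw [lintegral_const, measure_univ, mul_one]
      _ ≤ ∫⁻ w, (op ν (1 + β / e j)
            ((op ν (1 - β * e j))^[n] (fun w => ENNReal.ofReal (h w))) w +
          ENNReal.ofReal (C * ∑ i, w i)) ∂(πe j) := lintegral_mono_ae h1
      _ = ∫⁻ w, op ν (1 + β / e j)
            ((op ν (1 - β * e j))^[n] (fun w => ENNReal.ofReal (h w))) w ∂(πe j) +
          ∫⁻ w, ENNReal.ofReal (C * ∑ i, w i) ∂(πe j) := lintegral_add_right _ hms
      _ ≤ _ := by
          gcongr
          have hint : Integrable (fun w : Fin (m + 1) → ℝ => C * ∑ i, w i) (πe j) :=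
            (integrable_finsetSum Finset.univ (fun i _ => hi i)).const_mul C
          have hnn : 0 ≤ᵐ[πe j] (fun w : Fin (m + 1) → ℝ => C * ∑ i, w i) := by
            filter_upwards [(F.st j).adm] with w hw
            exact mul_nonneg hC (Finset.sum_nonneg (fun i _ => hw.2 i))
          rw [← ofReal_integral_eq_lintegral_ofReal hint hnn]
          apply ENNReal.ofReal_le_ofReal
          rw [integral_const_mul, integral_finsetSum _ (fun i _ => hi i)]
          exact mul_le_mul_of_nonneg_left hmean hC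
  have hsum : ENNReal.ofReal (pp (e j)) *
      ∑ n ∈ Finset.range (NN (e j)), ENNReal.ofReal (1 - pp (e j)) ^ n *
        ∫⁻ ω, ENNReal.ofReal (G j n ω) ∂(Measure.infinitePi fun _ : ℕ => ν) ≤
      ENNReal.ofReal (pp (e j)) * ∑ n ∈ Finset.range (NN (e j)), ENNReal.ofReal (1 - pp (e j)) ^ n *
        ∫⁻ w, op ν (1 + β / e j)
          ((op ν (1 - β * e j))^[n] (fun w => ENNReal.ofReal (h w))) w ∂(πe j) +
      ENNReal.ofReal (C * Mn * (NN (e j) * pp (e j))) := by
    calc ENNReal.ofReal (pp (e j)) *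
        ∑ n ∈ Finset.range (NN (e j)), ENNReal.ofReal (1 - pp (e j)) ^ n *
          ∫⁻ ω, ENNReal.ofReal (G j n ω) ∂(Measure.infinitePi fun _ : ℕ => ν)
        ≤ ENNReal.ofReal (pp (e j)) *
        ∑ n ∈ Finset.range (NN (e j)), (ENNReal.ofReal (1 - pp (e j)) ^ n *
          ∫⁻ w, op ν (1 + β / e j)
            ((op ν (1 - β * e j))^[n] (fun w => ENNReal.ofReal (h w))) w ∂(πe j) +
            ENNReal.ofReal (C * Mn)) := by
          gcongr with n hn
          calc ENNReal.ofReal (1 - pp (e j)) ^ n *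
              ∫⁻ ω, ENNReal.ofReal (G j n ω) ∂(Measure.infinitePi fun _ : ℕ => ν)
              ≤ ENNReal.ofReal (1 - pp (e j)) ^ n *
              (∫⁻ w, op ν (1 + β / e j)
                ((op ν (1 - β * e j))^[n] (fun w => ENNReal.ofReal (h w))) w ∂(πe j) +
                ENNReal.ofReal (C * Mn)) := by gcongr; exact key n
            _ = ENNReal.ofReal (1 - pp (e j)) ^ n *
              (∫⁻ w, op ν (1 + β / e j)
                ((op ν (1 - β * e j))^[n] (fun w => ENNReal.ofReal (h w))) w ∂(πe j)) +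
                ENNReal.ofReal (1 - pp (e j)) ^ n * ENNReal.ofReal (C * Mn) := mul_add _ _ _
            _ ≤ _ := by
                gcongr
                calc ENNReal.ofReal (1 - pp (e j)) ^ n * ENNReal.ofReal (C * Mn)
                    ≤ 1 * ENNReal.ofReal (C * Mn) := by
                      gcongr
                      apply pow_le_one₀ (by positivity)
                      rw [ENNReal.ofReal_le_one]
                      linarith
                  _ = _ := one_mul _
      _ = _ := by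
          rw [Finset.sum_add_distrib, mul_add, Finset.sum_const, Finset.card_range]
          congr 1
          rw [nsmul_eq_mul, ← ENNReal.ofReal_natCast, ← ENNReal.ofReal_mul (Nat.cast_nonneg _),
            ← ENNReal.ofReal_mul hp0]
          congr 1
          ring
  have hdec := hDEC (m + 1) ν (pp (e j)) (1 - β * e j) (1 + β / e j) M (πe j)
    (fun w => ENNReal.ofReal (h w)) (NN (e j)) F.inp.prob hp0 hp1 hM (F.st j) hm.ennreal_ofReal
  calc _ ≤ ∫⁻ w, min (ENNReal.ofReal (h w)) (ENNReal.ofReal M) ∂(πe j) +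
      (ENNReal.ofReal (pp (e j)) * ∑ n ∈ Finset.range (NN (e j)),
        ENNReal.ofReal (1 - pp (e j)) ^ n *
        ∫⁻ w, op ν (1 + β / e j)
          ((op ν (1 - β * e j))^[n] (fun w => ENNReal.ofReal (h w))) w ∂(πe j) +
      ENNReal.ofReal (C * Mn * (NN (e j) * pp (e j)))) := by gcongr
    _ = (∫⁻ w, min (ENNReal.ofReal (h w)) (ENNReal.ofReal M) ∂(πe j) +
      ENNReal.ofReal (pp (e j)) * ∑ n ∈ Finset.range (NN (e j)),
        ENNReal.ofReal (1 - pp (e j)) ^ n *
        ∫⁻ w, op ν (1 + β / e j)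
          ((op ν (1 - β * e j))^[n] (fun w => ENNReal.ofReal (h w))) w ∂(πe j)) +
      ENNReal.ofReal (C * Mn * (NN (e j) * pp (e j))) := by rw [add_assoc]
    _ ≤ (∫⁻ w, ENNReal.ofReal (h w) ∂(πe j) + ENNReal.ofReal (M * NN (e j) * pp (e j))) +
      ENNReal.ofReal (C * Mn * (NN (e j) * pp (e j))) := by gcongr
    _ = _ := by
        rw [add_assoc, ← ENNReal.ofReal_add (by positivity) (by positivity)]
        congr 2
        ring

end

theorem main (hWEAK : S_WEAK) (hDEC : S_DEC) (hBR : S_BR) (hMEANB : S_MEANB) : S_LB := by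
  intro m ν β e πe π F h L C lam G hL hC hlam hm hLip h0 h1 hG hlow hlam' δ hδ
  obtain ⟨Mn, hMn, hj, hπ⟩ := mean_bd hMEANB F
  haveI := F.st0.prob
  obtain ⟨-, hIπ, hI0⟩ := int_h F.st0.adm hπ h hm h0 h1
  set I := ∫ w, h w ∂π with hIdef
  -- truncation
  obtain ⟨M, hM, hMI⟩ : ∃ M : ℝ, 0 < M ∧ ENNReal.ofReal (I - δ / 4) ≤
      ∫⁻ w, min (ENNReal.ofReal (h w)) (ENNReal.ofReal M) ∂π := by
    by_cases hc : I - δ / 4 ≤ 0
    · exact ⟨1, one_pos, by rw [ENNReal.ofReal_of_nonpos hc]; exact zero_le⟩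
    push Not at hc
    have hlim : Tendsto (fun n : ℕ =>
        ∫⁻ w, min (ENNReal.ofReal (h w)) (ENNReal.ofReal ((n : ℝ) + 1)) ∂π) atTop
        (𝓝 (∫⁻ w, ENNReal.ofReal (h w) ∂π)) := by
      refine lintegral_tendsto_of_tendsto_of_monotone
        (fun n => (hm.ennreal_ofReal.min measurable_const).aemeasurable) ?_ ?_
      · filter_upwards with w n n' hn
        exact min_le_min le_rfl (ENNReal.ofReal_le_ofReal (by
          have : (n : ℝ) ≤ n' := by exact_mod_cast hn
          linarith))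
      · filter_upwards with w
        apply tendsto_const_nhds.congr'
        obtain ⟨n0, hn0⟩ := exists_nat_ge (h w)
        filter_upwards [eventually_ge_atTop n0] with n hn
        rw [min_eq_left]
        apply ENNReal.ofReal_le_ofReal
        have : (n0 : ℝ) ≤ n := by exact_mod_cast hn
        linarith
    rw [hIπ] at hlim
    have hlt : ENNReal.ofReal (I - δ / 4) < ENNReal.ofReal I :=
      (ENNReal.ofReal_lt_ofReal_iff (by linarith)).2 (by linarith)
    obtain ⟨n, hn⟩ := (hlim.eventually (lt_mem_nhds hlt)).exists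
    exact ⟨(n : ℝ) + 1, by positivity, hn.le⟩
  -- weak convergence
  have hW : ∀ᶠ j in atTop, ENNReal.ofReal (I - δ / 2) ≤
      ∫⁻ w, min (ENNReal.ofReal (h w)) (ENNReal.ofReal M) ∂(πe j) := by
    by_cases hc : I - δ / 2 ≤ 0
    · exact Eventually.of_forall (fun j => by
        rw [ENNReal.ofReal_of_nonpos hc]; exact zero_le)
    push Not at hc
    have hφm : Measurable (fun w => min (ENNReal.ofReal (h w / M)) 1) :=
      (hm.div_const M).ennreal_ofReal.min measurable_const
    have hres : ∀ w, ENNReal.ofReal M * min (ENNReal.ofReal (h w / M)) 1 =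
        min (ENNReal.ofReal (h w)) (ENNReal.ofReal M) := by
      intro w
      have hmono : Monotone (fun x : ℝ≥0∞ => ENNReal.ofReal M * x) := fun x y hxy => by
        simp only
        gcongr
      have h6 := hmono.map_min (a := ENNReal.ofReal (h w / M)) (b := 1)
      rw [h6, ← ENNReal.ofReal_mul hM.le, mul_one, mul_div_cancel₀ _ hM.ne']
    have hLipφ : Lip (L / M) (fun w => min (ENNReal.ofReal (h w / M)) 1) := by
      intro x y
      simp only
      have hx : h x / M ≤ h y / M + L / M * ∑ i, |x i - y i| := by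
        have := (abs_le.1 (hLip x y)).2
        rw [div_mul_eq_mul_div, ← add_div]
        exact (div_le_div_iff_of_pos_right hM).2 (by linarith)
      have hx' : ENNReal.ofReal (h x / M) ≤
          ENNReal.ofReal (h y / M) + ENNReal.ofReal (L / M * ∑ i, |x i - y i|) :=
        le_trans (ENNReal.ofReal_le_ofReal hx) ENNReal.ofReal_add_le
      rcases le_total (ENNReal.ofReal (h y / M)) 1 with hy | hy
      · rw [min_eq_left hy]
        exact le_trans (min_le_left _ _) hx'
      · rw [min_eq_right hy]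
        exact le_trans (min_le_right _ _) le_self_add
    have hw := hWEAK m ν β e πe π F (L / M) (fun w => min (ENNReal.ofReal (h w / M)) 1)
      (by positivity) hφm (fun w => min_le_right _ _) hLipφ
    have hw2 : Tendsto (fun j => ∫⁻ w, min (ENNReal.ofReal (h w)) (ENNReal.ofReal M) ∂(πe j)) atTop
        (𝓝 (∫⁻ w, min (ENNReal.ofReal (h w)) (ENNReal.ofReal M) ∂π)) := by
      have h3 := ENNReal.Tendsto.const_mul (a := ENNReal.ofReal M) hw
        (Or.inr ENNReal.ofReal_ne_top)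
      have h4 : ∀ μ : Measure (Fin (m + 1) → ℝ),
          ENNReal.ofReal M * ∫⁻ w, min (ENNReal.ofReal (h w / M)) 1 ∂μ =
          ∫⁻ w, min (ENNReal.ofReal (h w)) (ENNReal.ofReal M) ∂μ := by
        intro μ
        rw [← lintegral_const_mul _ hφm]
        exact lintegral_congr hres
      simp only [h4] at h3
      exact h3
    have hlt : ENNReal.ofReal (I - δ / 2) <
        ∫⁻ w, min (ENNReal.ofReal (h w)) (ENNReal.ofReal M) ∂π :=
      lt_of_lt_of_le ((ENNReal.ofReal_lt_ofReal_iff (by linarith)).2 (by linarith)) hMI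
    filter_upwards [hw2.eventually (lt_mem_nhds hlt)] with j hj using hj.le
  -- the sum
  have hX : ∀ᶠ j in atTop, ENNReal.ofReal (lam - δ / 4) ≤ ENNReal.ofReal (pp (e j)) *
      ∑ n ∈ Finset.range (NN (e j)), ENNReal.ofReal (1 - pp (e j)) ^ n *
        ∫⁻ ω, ENNReal.ofReal (G j n ω) ∂(Measure.infinitePi fun _ : ℕ => ν) := by
    by_cases hc : lam - δ / 4 ≤ 0
    · exact Eventually.of_forall (fun j => by
        rw [ENNReal.ofReal_of_nonpos hc]; exact zero_le)
    push Not at hc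
    have hlt : ENNReal.ofReal (lam - δ / 4) < liminf (fun j => ENNReal.ofReal (pp (e j)) *
      ∑ n ∈ Finset.range (NN (e j)), ENNReal.ofReal (1 - pp (e j)) ^ n *
        ∫⁻ ω, ENNReal.ofReal (G j n ω) ∂(Measure.infinitePi fun _ : ℕ => ν)) atTop :=
      lt_of_lt_of_le ((ENNReal.ofReal_lt_ofReal_iff (by linarith)).2 (by linarith)) hlam'
    filter_upwards [eventually_lt_of_lt_liminf hlt] with j hj using hj.le
  -- the error
  have hE : ∀ᶠ j in atTop, (M + C * Mn) * (NN (e j) * pp (e j)) ≤ δ / 4 := by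
    have h5 : Tendsto (fun j => (M + C * Mn) * (NN (e j) * pp (e j))) atTop (𝓝 0) := by
      have := (NNpp e (fun j => (F.e0 j).1) F.lim).const_mul (M + C * Mn)
      simpa using this
    filter_upwards [h5.eventually (gt_mem_nhds (show (0 : ℝ) < δ / 4 by linarith))] with j hj
      using hj.le
  filter_upwards [hW, hX, hE] with j hW hX hE
  obtain ⟨-, hIj, hIj0⟩ := int_h (F.st j).adm (hj j).1 h hm h0 h1
  have hone := one_j hDEC hBR F h C Mn G hC hMn hm hG hlow j (hj j).1 (hj j).2 M hM.le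
  rw [hIj] at hone
  have hfin : ENNReal.ofReal ((I - δ / 2) + (lam - δ / 4)) ≤
      ENNReal.ofReal (∫ w, h w ∂(πe j) + δ / 4) := by
    calc ENNReal.ofReal ((I - δ / 2) + (lam - δ / 4))
        ≤ ENNReal.ofReal (I - δ / 2) + ENNReal.ofReal (lam - δ / 4) := ENNReal.ofReal_add_le
      _ ≤ _ := le_trans (add_le_add hW hX) hone
      _ ≤ ENNReal.ofReal (∫ w, h w ∂(πe j)) + ENNReal.ofReal (δ / 4) := by gcongr
      _ = _ := (ENNReal.ofReal_add hIj0 (by linarith)).symm
  have := (ENNReal.ofReal_le_ofReal_iff (by linarith)).1 hfin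
  linarith

end Pool.Agent.Helper16.HQ.LB
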