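import Pool.Agent.Helper98.HQ.Spec

/-!
# HQ, part LBS: the lower bounds (MP_1ece5f_pr)
-/

set_option autoImplicit false
set_option linter.unusedVariables false
set_option linter.style.haveILetI false

open MeasureTheory Filter Topology
open scoped ENNReal NNReal

namespace Pool.Agent.Helper16.HQ.LBS

open Pool.Agent.Helper98.HQ

lemma meas1 (i : ℕ) : Measurable (fun ω : ℕ → ℝ × ℝ => (ω i).1) :=
  (measurable_pi_apply i).fst

lemma meas2 (i : ℕ) : Measurable (fun ω : ℕ → ℝ × ℝ => (ω i).2) :=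
  (measurable_pi_apply i).snd

lemma measMX (n : ℕ) : Measurable (fun ω : ℕ → ℝ × ℝ => MX ω n) := by
  induction n with
  | zero => exact measurable_const
  | succ n ih => exact ih.max (meas2 (n + 1))

lemma measUU (m : ℕ) (a : ℝ) (n : ℕ) : Measurable (fun ω : ℕ → ℝ × ℝ => UU m a ω n) := by
  induction n with
  | zero => exact measurable_const
  | succ n ih =>
    exact ((ih.add ((meas2 (n + 1)).const_mul a)).sub
      ((meas1 (n + 1)).const_mul (m : ℝ))).max measurable_const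

lemma measF1 (m : ℕ) (a b : ℝ) (n : ℕ) : Measurable (fun ω : ℕ → ℝ × ℝ => F1 m a b ω n) := by
  unfold F1
  refine Measurable.sub (Measurable.min ?_ ?_) (measMX n)
  · exact (Finset.measurable_sum _ (fun j _ => ((meas2 j).const_mul a).sub
      ((meas1 j).const_mul (m : ℝ)))).div_const _
  · exact ((((meas2 0).const_mul b).sub (meas1 0)).add (Finset.measurable_sum _ (fun j _ =>
      ((meas2 j).const_mul a).sub ((meas1 j).const_mul ((m : ℝ) + 1))))).div_const _

lemma measF2 (m : ℕ) (a b : ℝ) (n : ℕ) : Measurable (fun ω : ℕ → ℝ × ℝ => F2 m a b ω n) := by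
  unfold F2
  exact ((((meas2 0).const_mul b).sub (Finset.measurable_sum _ (fun j _ => meas1 j))).sub
    (measMX n)).sub ((measUU m a n).div_const _)

lemma measg1 (m : ℕ) (A B β : ℝ) : Measurable (fun z : ℝ × (ℕ → ℝ × ℝ) =>
    g1 m A B z.1 (β * (z.2 0).2)) := by
  unfold g1
  have h2 : Measurable (fun z : ℝ × (ℕ → ℝ × ℝ) => (z.2 0).2) := (meas2 0).comp measurable_snd
  exact ((measurable_fst.mul_const _).div_const _).min
    (((h2.const_mul β).sub (measurable_fst.mul_const _)).div_const _)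

lemma measg2 (m : ℕ) (A B β : ℝ) : Measurable (fun z : ℝ × (ℕ → ℝ × ℝ) =>
    g2 m A B z.1 (β * (z.2 0).2)) := by
  unfold g2
  have h2 : Measurable (fun z : ℝ × (ℕ → ℝ × ℝ) => (z.2 0).2) := (meas2 0).comp measurable_snd
  exact (h2.const_mul β).sub (measurable_fst.mul_const _)

lemma single_le {m : ℕ} (x y : Fin (m + 1) → ℝ) (i : Fin (m + 1)) :
    |x i - y i| ≤ ∑ i, |x i - y i| :=
  Finset.single_le_sum (f := fun i => |x i - y i|) (fun i _ => abs_nonneg _) (Finset.mem_univ i)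

lemma adm_le {m : ℕ} (w : Fin (m + 1) → ℝ) (hw : Adm w) (i : Fin (m + 1)) :
    w i ≤ ∑ i, w i :=
  Finset.single_le_sum (f := w) (fun i _ => hw.2 i) (Finset.mem_univ i)

lemma lipdiff {m : ℕ} (x y : Fin (m + 1) → ℝ) (i : Fin (m + 1)) :
    |(x i - x 0) - (y i - y 0)| ≤ 2 * ∑ i, |x i - y i| := by
  have h1 := single_le x y i
  have h2 := single_le x y 0
  have h3 : |(x i - x 0) - (y i - y 0)| ≤ |x i - y i| + |x 0 - y 0| := by
    have : (x i - x 0) - (y i - y 0) = (x i - y i) - (x 0 - y 0) := by ring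
    rw [this]
    exact abs_sub _ _
  linarith

lemma diff_nonneg {m : ℕ} (w : Fin (m + 1) → ℝ) (hw : Adm w) (i : Fin (m + 1)) :
    0 ≤ w i - w 0 := sub_nonneg.2 (hw.1 (Fin.zero_le i))

lemma diff_le {m : ℕ} (w : Fin (m + 1) → ℝ) (hw : Adm w) (i : Fin (m + 1)) :
    w i - w 0 ≤ ∑ i, w i := by
  have h1 := adm_le w hw i
  have h2 := hw.2 0
  linarith

theorem main (hLB : S_LB) (hFAT : S_FAT) (hLIM1 : S_LIM1) (hLIM2 : S_LIM2) (hSLLN : S_SLLN)
    (hAREA1 : S_AREA1) (hAREA2 : S_AREA2) (hPF1 : S_PF1) (hPF2 : S_PF2) (hKWB : S_KWB) :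
    S_LBS := by
  intro m ν β e πe π hm F δ hδ
  have hA := F.inp.Tpos
  have hB := F.inp.Spos
  have hstab := F.inp.stab
  push_cast at hstab
  have hE2 : 0 ≤ ∫ u, u.2 ^ 2 ∂ν := integral_nonneg (fun u => sq_nonneg _)
  have hm' : (0 : ℝ) < m := by exact_mod_cast hm
  have he0 : ∀ j, 0 < e j := fun j => (F.e0 j).1
  have ha0 : ∀ j, 0 ≤ 1 - β * e j := fun j => by linarith [(F.e0 j).2]
  have ha1 : ∀ j, 1 - β * e j ≤ 1 := fun j => by
    have := mul_pos F.β0 (he0 j)
    linarith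
  have hb0 : ∀ j, 0 ≤ 1 + β / e j := fun j => by
    have := div_pos F.β0 (he0 j)
    linarith
  have hgood := hSLLN (m + 1) ν F.inp
  refine ⟨?_, ?_, ?_⟩
  · -- the first workload
    refine hLB m ν β e πe π F (fun w => w 0) 1 0
      (L1v m (∫ u, u.1 ∂ν) (∫ u, u.2 ∂ν) (∫ u, u.2 ^ 2 ∂ν) β)
      (fun j n ω => F1 m (1 - β * e j) (1 + β / e j) ω n) zero_le_one le_rfl ?_
      (measurable_pi_apply 0) ?_ ?_ ?_ ?_ ?_ ?_ δ hδ
    · unfold L1v
      have h1 : 0 < (m + 1) * (∫ u, u.1 ∂ν) - ∫ u, u.2 ∂ν := by linarith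
      positivity
    · intro x y
      rw [one_mul]
      exact single_le x y 0
    · intro w hw
      exact hw.2 0
    · intro w hw
      exact adm_le w hw 0
    · intro j n
      exact measF1 _ _ _ _
    · intro j n w ω hw hω
      have := hPF1 m (1 - β * e j) (1 + β / e j) w ω n hm (ha0 j) (ha1 j) (hb0 j) hw hω
      linarith
    · refine le_trans (hAREA1 m ν β hm F.inp F.β0) ?_
      refine hFAT ν e (fun j n ω => F1 m (1 - β * e j) (1 + β / e j) ω n)
        (fun x ω => g1 m (∫ u, u.1 ∂ν) (∫ u, u.2 ∂ν) x (β * (ω 0).2)) F.inp.prob he0 F.lim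
        (fun j n => measF1 _ _ _ _) (measg1 _ _ _ _) ?_
      filter_upwards [hgood] with ω hω x hx
      exact hLIM1 m _ _ β x e ω hm F.β0 hx he0 F.lim hω
  · intro i
    have := hLB m ν β e πe π F (fun w => w i - w 0) 2 0 0 (fun _ _ _ => 0) zero_le_two le_rfl
      le_rfl ((measurable_pi_apply i).sub (measurable_pi_apply 0)) (fun x y => lipdiff x y i)
      (fun w hw => diff_nonneg w hw i) (fun w hw => diff_le w hw i) (fun _ _ => measurable_const)
      (fun j n w ω _ _ => by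
        have hadm : Adm (pth (cc (1 - β * e j) (1 + β / e j)) w ω (n + 1)) :=
          (hKWB (m + 1) _ 0 _ 0 _).1
        have := diff_nonneg _ hadm i
        linarith)
      (by rw [ENNReal.ofReal_zero]; exact zero_le) δ hδ
    simpa only [add_zero] using this
  · refine hLB m ν β e πe π F (fun w => w (Fin.last m) - w 0) 2 2
      (L2v m (∫ u, u.1 ∂ν) (∫ u, u.2 ∂ν) (∫ u, u.2 ^ 2 ∂ν) β)
      (fun j n ω => F2 m (1 - β * e j) (1 + β / e j) ω n) zero_le_two zero_le_two ?_
      ((measurable_pi_apply _).sub (measurable_pi_apply 0)) (fun x y => lipdiff x y _)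
      (fun w hw => diff_nonneg w hw _) (fun w hw => diff_le w hw _) ?_ ?_ ?_ δ hδ
    · unfold L2v
      positivity
    · intro j n
      exact measF2 _ _ _ _
    · intro j n w ω hw hω
      exact hPF2 m (1 - β * e j) (1 + β / e j) w ω n hm (ha0 j) (ha1 j) (hb0 j) hw hω
    · refine le_trans (hAREA2 m ν β hm F.inp F.β0) ?_
      refine hFAT ν e (fun j n ω => F2 m (1 - β * e j) (1 + β / e j) ω n)
        (fun x ω => g2 m (∫ u, u.1 ∂ν) (∫ u, u.2 ∂ν) x (β * (ω 0).2)) F.inp.prob he0 F.lim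
        (fun j n => measF2 _ _ _ _) (measg2 _ _ _ _) ?_
      filter_upwards [hgood] with ω hω x hx
      exact hLIM2 m _ _ β x e ω hm F.β0 hx he0 F.lim hω

end Pool.Agent.Helper16.HQ.LBS
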